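import Mathlib

/-!
The comparison of the second order terms for heights which differ by a bounded amount.
-/

set_option autoImplicit false

namespace Pool.Agent.U168.VJ

open Filter Topology

lemma tendsto_rpow_div_log {a : ℝ} (ha : 0 < a) :
    Tendsto (fun t : ℝ => t ^ a / Real.log t) atTop atTop := by
  have h1 : Tendsto (fun t : ℝ => Real.log t / t ^ a) atTop (𝓝 0) :=
    (isLittleO_log_rpow_atTop ha).tendsto_div_nhds_zero
  have h2 : Tendsto (fun t : ℝ => Real.log t / t ^ a) atTop (𝓝[>] 0) := by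
    refine tendsto_nhdsWithin_iff.2 ⟨h1, ?_⟩
    filter_upwards [eventually_gt_atTop (1 : ℝ)] with t ht
    exact div_pos (Real.log_pos ht) (Real.rpow_pos_of_pos (by linarith) _)
  have h3 := tendsto_inv_nhdsGT_zero.comp h2
  refine h3.congr fun t => ?_
  simp [inv_div]

/-- If `h` differs from `D t` by a bounded amount, then `κ h ^ a / log h` is less than
`D k0 t ^ a / log t`, with a large difference, if `κ < k0 D ^ (1 - a)`. -/
theorem compare {a D k0 κ C a1 a2 : ℝ} (ha : 0 < a) (ha1 : a < 1) (hD : 1 ≤ D) (hk0 : 0 < k0)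
    (hκ : κ < k0 * D ^ (1 - a)) :
    ∀ᶠ t : ℝ in atTop, ∀ h : ℝ, h ≤ D * t + a1 → D * t - a2 ≤ h →
      κ * h ^ a / Real.log h + C ≤ D * (k0 * t ^ a / Real.log t) := by
  have hD0 : 0 < D := by linarith
  set κ' : ℝ := max κ 0 with hκ'
  have hκ'0 : 0 ≤ κ' := le_max_right _ _
  have hDa : 0 < D ^ (1 - a) := Real.rpow_pos_of_pos hD0 _
  have hκ'1 : κ' < k0 * D ^ (1 - a) := max_lt hκ (by positivity)
  -- the small parameter
  have hcont : Tendsto (fun ε : ℝ => κ' * ((1 + ε) / (1 - ε)) + ε) (𝓝 0)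
      (𝓝 (κ' * ((1 + 0) / (1 - 0)) + 0)) := by
    refine Tendsto.add (Tendsto.const_mul _ (Tendsto.div ?_ ?_ (by norm_num))) tendsto_id
    · exact tendsto_const_nhds.add tendsto_id
    · exact tendsto_const_nhds.sub tendsto_id
  have hlt : κ' * ((1 + 0) / (1 - 0)) + 0 < k0 * D ^ (1 - a) := by simpa using hκ'1
  have hev := hcont.eventually (gt_mem_nhds hlt)
  obtain ⟨δ, hδ0, hδ⟩ := Metric.eventually_nhds_iff.mp hev
  set ε : ℝ := min (δ / 2) (1 / 2) with hε
  have hε0 : 0 < ε := by positivity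
  have hε1 : ε ≤ 1 / 2 := min_le_right _ _
  have hεδ : κ' * ((1 + ε) / (1 - ε)) + ε < k0 * D ^ (1 - a) := by
    refine hδ ?_
    rw [Real.dist_eq, sub_zero, abs_of_pos hε0]
    exact lt_of_le_of_lt (min_le_left _ _) (by linarith)
  have e1 : ∀ᶠ t : ℝ in atTop, 1 < t := eventually_gt_atTop 1
  have e2 : ∀ᶠ t : ℝ in atTop, |a1| / (ε * D) ≤ t := eventually_ge_atTop _
  have e3 : ∀ᶠ t : ℝ in atTop, 2 * |a2| + 2 ≤ t := eventually_ge_atTop _
  have e4 : ∀ᶠ t : ℝ in atTop, Real.log 2 / ε ≤ Real.log t :=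
    Real.tendsto_log_atTop.eventually_ge_atTop _
  have e5 : ∀ᶠ t : ℝ in atTop, C / (D ^ a * ε) ≤ t ^ a / Real.log t :=
    (tendsto_rpow_div_log ha).eventually_ge_atTop _
  filter_upwards [e1, e2, e3, e4, e5] with t h1 h2 h3 h4 h5 h hh1 hh2
  have ht0 : 0 < t := by linarith
  have hlt0 : 0 < Real.log t := Real.log_pos h1
  have hb1 : h ≤ (1 + ε) * (D * t) := by
    have : |a1| ≤ t * (ε * D) := by rwa [div_le_iff₀ (by positivity)] at h2
    have h6 := le_abs_self a1
    nlinarith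
  have hb2 : t / 2 ≤ h := by
    have h6 := le_abs_self a2
    nlinarith
  have hh0 : 0 < h := by linarith
  have h1h : 1 < h := by
    have := abs_nonneg a2
    have h7 : D * t - a2 ≤ h := hh2
    have h6 := le_abs_self a2
    nlinarith
  have hlh : (1 - ε) * Real.log t ≤ Real.log h := by
    have h6 := Real.log_le_log (by positivity) hb2
    rw [Real.log_div (by positivity) (by norm_num)] at h6
    rw [div_le_iff₀ hε0] at h4
    linarith
  have h1ε : 0 < 1 - ε := by linarith
  have hl0 : 0 < (1 - ε) * Real.log t := by positivity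
  have hpow : h ^ a ≤ (1 + ε) * (D ^ a * t ^ a) := by
    calc h ^ a ≤ ((1 + ε) * (D * t)) ^ a := Real.rpow_le_rpow hh0.le hb1 ha.le
      _ = (1 + ε) ^ a * (D ^ a * t ^ a) := by
          rw [Real.mul_rpow (by positivity) (by positivity), Real.mul_rpow hD0.le ht0.le]
      _ ≤ (1 + ε) * (D ^ a * t ^ a) := by
          refine mul_le_mul_of_nonneg_right ?_ (by positivity)
          calc (1 + ε) ^ a ≤ (1 + ε) ^ (1 : ℝ) :=
                Real.rpow_le_rpow_of_exponent_le (by linarith) ha1.le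
            _ = 1 + ε := Real.rpow_one _
  have hlogh0 : 0 < Real.log h := Real.log_pos h1h
  have m1 : κ * h ^ a / Real.log h ≤ κ' * ((1 + ε) / (1 - ε)) * (D ^ a * (t ^ a / Real.log t)) := by
    calc κ * h ^ a / Real.log h ≤ κ' * h ^ a / Real.log h := by
          have : κ ≤ κ' := le_max_left _ _
          gcongr
      _ ≤ κ' * ((1 + ε) * (D ^ a * t ^ a)) / ((1 - ε) * Real.log t) := by gcongr
      _ = _ := by field_simp
  have m2 : C ≤ ε * (D ^ a * (t ^ a / Real.log t)) := by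
    rw [div_le_iff₀ (by positivity)] at h5
    linarith
  have m3 : D * (k0 * t ^ a / Real.log t) = k0 * D ^ (1 - a) * (D ^ a * (t ^ a / Real.log t)) := by
    have : D = D ^ (1 - a) * D ^ a := by
      rw [← Real.rpow_add hD0, sub_add_cancel, Real.rpow_one]
    conv_lhs => rw [this]
    ring
  have m4 : 0 ≤ D ^ a * (t ^ a / Real.log t) := by positivity
  rw [m3]
  calc κ * h ^ a / Real.log h + C ≤
      κ' * ((1 + ε) / (1 - ε)) * (D ^ a * (t ^ a / Real.log t)) +
        ε * (D ^ a * (t ^ a / Real.log t)) := add_le_add m1 m2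
    _ = (κ' * ((1 + ε) / (1 - ε)) + ε) * (D ^ a * (t ^ a / Real.log t)) := by ring
    _ ≤ _ := mul_le_mul_of_nonneg_right hεδ.le m4

end Pool.Agent.U168.VJ
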