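import Pool.Agent.W231.H.Cnt

/-!
Heights of integer points over a number field.
-/

set_option autoImplicit false

namespace Pool.Agent.U168.VJ

open NumberField IsDedekindDomain Height Finset Pool.Agent.W231.V

variable {K : Type*} [Field K] [NumberField K]

lemma fv_int (v : HeightOneSpectrum (𝓞 K)) (m : ℤ) : fv v (m : K) ≤ 1 := by
  obtain ⟨n, rfl | rfl⟩ := m.eq_nat_or_neg
  · simpa using fv_nat v n
  · have : ((-(n : ℤ) : ℤ) : K) = -(n : K) := by push_cast; rfl
    rw [this, map_neg_eq_map]
    exact fv_nat v n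

lemma fv_natAbs (v : HeightOneSpectrum (𝓞 K)) (m : ℤ) : fv v (m.natAbs : K) = fv v (m : K) := by
  obtain ⟨n, rfl | rfl⟩ := m.eq_nat_or_neg
  · rw [Int.natAbs_natCast, Int.cast_natCast]
  · rw [Int.natAbs_neg, Int.natAbs_natCast, Int.cast_neg, Int.cast_natCast, map_neg_eq_map]

lemma w_int (w : InfinitePlace K) (m : ℤ) : w (m : K) = (m.natAbs : ℝ) := by
  have h0 : ∀ n : ℕ, w (n : K) = n := fun n => by simp
  obtain ⟨n, rfl | rfl⟩ := m.eq_nat_or_neg
  · rw [Int.natAbs_natCast, Int.cast_natCast, h0]
  · rw [Int.natAbs_neg, Int.natAbs_natCast, Int.cast_neg, Int.cast_natCast]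
    have : w (-(n : K)) = w (n : K) := w.1.map_neg (n : K)
    rw [this, h0]

/-- a prime number below `v` which divides a number that is small at `v` -/
lemma exists_prime_of_lt (v : HeightOneSpectrum (𝓞 K)) : ∀ n : ℕ, n ≠ 0 → fv v (n : K) < 1 →
    ∃ p : ℕ, p.Prime ∧ p ∣ n ∧ fv v (p : K) < 1 := by
  intro n
  induction n using Nat.strong_induction_on with
  | _ n ih =>
    intro hn hv
    by_cases h1 : n = 1
    · subst h1
      simp at hv
    obtain ⟨p, hp, m, rfl⟩ := Nat.exists_prime_and_dvd h1
    by_cases hpv : fv v (p : K) < 1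
    · exact ⟨p, hp, dvd_mul_right _ _, hpv⟩
    · have hp1 : fv v (p : K) = 1 := le_antisymm (fv_nat v p) (not_lt.1 hpv)
      have hm : m ≠ 0 := by rintro rfl; simp at hn
      have hmv : fv v (m : K) < 1 := by
        push_cast at hv
        rwa [map_mul, hp1, one_mul] at hv
      obtain ⟨q, hq, hqm, hqv⟩ := ih m (by
        have := hp.two_le
        have := Nat.pos_of_ne_zero hm
        nlinarith) hm hmv
      exact ⟨q, hq, Dvd.dvd.mul_left hqm p, hqv⟩

lemma fv_one_of_not_dvd (v : HeightOneSpectrum (𝓞 K)) {p : ℕ} (hp : p.Prime)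
    (hpv : fv v (p : K) < 1) (m : ℤ) (hm : fv v (m : K) < 1) : p ∣ m.natAbs := by
  by_contra hcon
  have hcop : IsCoprime (p : ℤ) (m.natAbs : ℤ) :=
    Nat.isCoprime_iff_coprime.2 ((Nat.Prime.coprime_iff_not_dvd hp).2 hcon)
  obtain ⟨a, b, hab⟩ := hcop
  have h1 : ((a : K) * p + b * (m.natAbs : K)) = 1 := by
    have h0 := congrArg (Int.cast : ℤ → K) hab
    rw [Int.cast_add, Int.cast_mul, Int.cast_mul, Int.cast_natCast, Int.cast_natCast,
      Int.cast_one] at h0
    exact h0
  have h2 : fv v ((a : K) * p + b * (m.natAbs : K)) < 1 := by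
    refine lt_of_le_of_lt (fv_na v _ _) (max_lt ?_ ?_)
    · rw [map_mul]
      calc fv v (a : K) * fv v (p : K) ≤ 1 * fv v (p : K) :=
            mul_le_mul_of_nonneg_right (fv_int v a) ((fv v).nonneg _)
        _ < 1 := by rwa [one_mul]
    · rw [map_mul, fv_natAbs]
      calc fv v (b : K) * fv v (m : K) ≤ 1 * fv v (m : K) :=
            mul_le_mul_of_nonneg_right (fv_int v b) ((fv v).nonneg _)
        _ < 1 := by rwa [one_mul]
  rw [h1, map_one] at h2
  exact lt_irrefl _ h2

/-- a primitive integer vector is primitive at all primes -/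
lemma exists_fv_one (v : HeightOneSpectrum (𝓞 K)) {m : ℕ} (z : Fin m → ℤ)
    (hz : (univ.gcd fun i => (z i).natAbs) = 1) : ∃ i, fv v (z i : K) = 1 := by
  by_contra hcon
  push Not at hcon
  have hlt : ∀ i, fv v (z i : K) < 1 := fun i => lt_of_le_of_ne (fv_int v _) (hcon i)
  obtain ⟨i, hi⟩ : ∃ i, z i ≠ 0 := by
    by_contra h
    push Not at h
    have : (univ.gcd fun i => (z i).natAbs) = 0 := by
      rw [Finset.gcd_eq_zero_iff]
      intro i _
      simp [h i]
    omega
  obtain ⟨p, hp, -, hpv⟩ := exists_prime_of_lt v (z i).natAbs (Int.natAbs_ne_zero.2 hi)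
    (by rw [fv_natAbs]; exact hlt i)
  have : p ∣ univ.gcd fun i => (z i).natAbs :=
    Finset.dvd_gcd fun j _ => fv_one_of_not_dvd v hp hpv (z j) (hlt j)
  rw [hz] at this
  exact hp.one_lt.ne' (Nat.dvd_one.1 this)

lemma ciSup_natCast {m : ℕ} [NeZero m] (f : Fin m → ℕ) :
    (⨆ i, ((f i : ℕ) : ℝ)) = ((univ.sup f : ℕ) : ℝ) := by
  apply le_antisymm
  · refine ciSup_le fun i => ?_
    exact_mod_cast Finset.le_sup (mem_univ i)
  · obtain ⟨i, _, hi⟩ := Finset.exists_mem_eq_sup (univ : Finset (Fin m)) univ_nonempty f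
    rw [hi]
    exact le_ciSup (f := fun i => ((f i : ℕ) : ℝ)) (Set.finite_range _).bddAbove i

/-- the height of a primitive integer vector -/
lemma logHeight_int {m : ℕ} [NeZero m] (z : Fin m → ℤ)
    (hz : (univ.gcd fun i => (z i).natAbs) = 1) :
    logHeight (fun i => (z i : K)) =
      (totalWeight K : ℝ) * Real.log ((univ.sup fun i => (z i).natAbs : ℕ) : ℝ) := by
  have hz0 : (fun i => (z i : K)) ≠ 0 := by
    intro h
    have : (univ.gcd fun i => (z i).natAbs) = 0 := by
      rw [Finset.gcd_eq_zero_iff]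
      intro i _
      have h1 : (z i : K) = 0 := congrFun h i
      have h2 : z i = 0 := by exact_mod_cast h1
      simp [h2]
    omega
  rw [logHeight_eq_log_mulHeight, ← Real.log_pow, NumberField.mulHeight_eq hz0]
  congr 1
  have h1 : ∏ᶠ v : FinitePlace K, ⨆ i, v ((fun i => (z i : K)) i) = 1 := by
    refine finprod_eq_one_of_forall_eq_one fun v => ?_
    apply le_antisymm
    · refine ciSup_le fun i => ?_
      have := fv_int v.maximalIdeal (z i)
      rwa [fv_apply, FinitePlace.mk_maximalIdeal] at this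
    · obtain ⟨i, hi⟩ := exists_fv_one v.maximalIdeal z hz
      rw [fv_apply, FinitePlace.mk_maximalIdeal] at hi
      rw [← hi]
      exact le_ciSup (f := fun i => v ((z i : K))) (Set.finite_range _).bddAbove i
  have h2 : ∀ w : InfinitePlace K, (⨆ i, w ((fun i => (z i : K)) i)) =
      ((univ.sup fun i => (z i).natAbs : ℕ) : ℝ) := by
    intro w
    rw [← ciSup_natCast]
    congr 1
    funext i
    exact w_int w _
  rw [h1, mul_one, totalWeight_eq_sum_mult, ← Finset.prod_pow_eq_pow_sum]
  exact Finset.prod_congr rfl fun w _ => by rw [h2 w]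

/-- the height of the value of a polynomial at an integer point -/
lemma height_mv_le {m : ℕ} (P : MvPolynomial (Fin m) K) {e : ℕ} (he : P.totalDegree ≤ e) :
    ∃ C : ℝ, ∀ (z : Fin m → ℤ) (M : ℕ), 1 ≤ M → (∀ i, (z i).natAbs ≤ M) →
      logHeight₁ (MvPolynomial.eval (fun i => (z i : K)) P) ≤
        (totalWeight K : ℝ) * (e * Real.log M) + C := by
  classical
  set A : Fin 2 × Option P.support → K := fun q => match q.2 with
    | some s => if q.1 = 0 then P.coeff s.1 else 0
    | none => if q.1 = 0 then 0 else 1 with hA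
  refine ⟨totalWeight K * Real.log (Nat.card (Option P.support)) + logHeight A,
    fun z M hM hz => ?_⟩
  set y : Option P.support → K := fun o => match o with
    | some s => ∏ i, (z i : K) ^ (s.1 i)
    | none => 1 with hy
  have h1 := logHeight_linearMap_apply_le A y
  have h2 : (fun j => ∑ i, A (j, i) * y i) =
      ![MvPolynomial.eval (fun i => (z i : K)) P, 1] := by
    funext j
    rw [Fintype.sum_option]
    fin_cases j
    · simp only [hA, hy, Fin.zero_eta, if_true, zero_mul, zero_add, Matrix.cons_val_zero]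
      rw [MvPolynomial.eval_eq']
      exact Finset.sum_coe_sort P.support (fun s => P.coeff s * ∏ i, (z i : K) ^ (s i))
    · simp [hA, hy]
  rw [h2, ← logHeight₁_eq_logHeight] at h1
  have hM' : (1 : ℝ) ≤ M := by exact_mod_cast hM
  have h3 : logHeight y ≤ (totalWeight K : ℝ) * Real.log ((M : ℝ) ^ e) := by
    refine logHeight_le_of ?_ (by positivity) ?_ ?_
    · intro h
      have := congrFun h none
      simp [hy] at this
    · intro w o
      rcases o with _ | s
      · simpa [hy] using one_le_pow₀ hM'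
      · simp only [hy]
        rw [map_prod]
        have h4 : ∑ i, s.1 i ≤ e := by
          have h5 := MvPolynomial.le_totalDegree s.2
          rw [Finsupp.sum_fintype _ _ (fun _ => rfl)] at h5
          exact h5.trans he
        calc ∏ i, w ((z i : K) ^ (s.1 i)) ≤ ∏ i, (M : ℝ) ^ (s.1 i) := by
              refine Finset.prod_le_prod (fun i _ => apply_nonneg w _) fun i _ => ?_
              rw [map_pow, w_int]
              exact pow_le_pow_left₀ (Nat.cast_nonneg _) (by exact_mod_cast hz i) _
          _ = (M : ℝ) ^ (∑ i, s.1 i) := Finset.prod_pow_eq_pow_sum _ _ _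
          _ ≤ (M : ℝ) ^ e := pow_le_pow_right₀ hM' h4
    · intro v o
      rcases o with _ | s
      · simp [hy]
      · simp only [hy]
        rw [map_prod]
        refine Finset.prod_le_one (fun i _ => (fv v).nonneg _) fun i _ => ?_
        rw [map_pow]
        exact pow_le_one₀ ((fv v).nonneg _) (fv_int v _)
  rw [Real.log_pow] at h3
  linarith

/-- the height of the image of a vector under a matrix -/
lemma logHeight_mat_le {m l : ℕ} [NeZero m] [NeZero l] (A : Fin l → Fin m → K) :
    ∃ C : ℝ, ∀ x : Fin m → K,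
      logHeight (fun j => ∑ i, A j i * x i) ≤ logHeight x + C := by
  refine ⟨totalWeight K * Real.log (Nat.card (Fin m)) + logHeight (fun q : Fin l × Fin m => A q.1 q.2),
    fun x => ?_⟩
  have h1 := logHeight_linearMap_apply_le (fun q : Fin l × Fin m => A q.1 q.2) x
  simp only at h1
  linarith

end Pool.Agent.U168.VJ
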