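import Pool.Agent.U168.VJ.Abc
import Pool.Agent.U168.VJ.Ana
import Pool.Agent.U168.VJ.Ht
import Pool.Agent.W231.V.Geo

/-!
The second order term in the truncated Vojta inequality: divisors of projective space which contain
`n + 2` hyperplanes in general position.
-/

set_option autoImplicit false
set_option linter.unusedSectionVars false

namespace Pool.Agent.U168.VJ

open NumberField IsDedekindDomain Height Finset Pool.Agent.W231.V
open Pool.Agent.W231.G (exists_bad fv_mv_le)
open Pool.Agent.W231.H (Bad lin lin_eval)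

variable {K : Type*} [Field K] [NumberField K]

/-- the primes which divide a coordinate divide the radical -/
lemma fv_rd_lt (v : HeightOneSpectrum (𝓞 K)) {m : ℕ} (z : Fin m → ℤ) (hz : ∀ i, z i ≠ 0) (i : Fin m)
    (hi : fv v (z i : K) < 1) : fv v ((rd z : ℕ) : K) < 1 := by
  obtain ⟨p, hp, hpi, hpv⟩ := exists_prime_of_lt v (z i).natAbs (Int.natAbs_ne_zero.2 (hz i))
    (by rw [fv_natAbs]; exact hi)
  have hmem : p ∈ (∏ i, (z i).natAbs).primeFactors := by
    refine Nat.mem_primeFactors.2 ⟨hp, hpi.trans (Finset.dvd_prod_of_mem _ (mem_univ i)), ?_⟩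
    exact Finset.prod_ne_zero_iff.2 fun i _ => Int.natAbs_ne_zero.2 (hz i)
  obtain ⟨c, hc⟩ : p ∣ rd z := Finset.dvd_prod_of_mem _ hmem
  rw [hc]
  push_cast
  rw [map_mul]
  calc fv v (p : K) * fv v (c : K) ≤ fv v (p : K) * 1 :=
        mul_le_mul_of_nonneg_left (fv_nat v c) ((fv v).nonneg _)
    _ < 1 := by rwa [mul_one]

lemma lin_totalDegree_le {m : ℕ} (l : Fin m → K) : (lin l).totalDegree ≤ 1 := by
  unfold lin
  refine (MvPolynomial.totalDegree_finsetSum _ _).trans (Finset.sup_le fun j _ => ?_)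
  refine (MvPolynomial.totalDegree_mul _ _).trans ?_
  rw [MvPolynomial.totalDegree_C, MvPolynomial.totalDegree_X]

/-- substitution of linear forms -/
lemma totalDegree_subst_le {m l : ℕ} (f : Fin m → MvPolynomial (Fin l) K)
    (hf : ∀ j, (f j).totalDegree ≤ 1) (E : MvPolynomial (Fin m) K) :
    (MvPolynomial.aeval f E).totalDegree ≤ E.totalDegree := by
  classical
  rw [MvPolynomial.aeval_def, MvPolynomial.eval₂_eq']
  refine (MvPolynomial.totalDegree_finsetSum _ _).trans (Finset.sup_le fun s hs => ?_)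
  refine (MvPolynomial.totalDegree_mul _ _).trans ?_
  rw [MvPolynomial.algebraMap_eq, MvPolynomial.totalDegree_C, zero_add]
  refine (MvPolynomial.totalDegree_finsetProd _ _).trans ?_
  have h1 : ∑ j, s j ≤ E.totalDegree := by
    have := MvPolynomial.le_totalDegree hs
    rwa [Finsupp.sum_fintype _ _ (fun _ => rfl)] at this
  refine (Finset.sum_le_sum fun j _ => ?_).trans h1
  refine (MvPolynomial.totalDegree_pow _ _).trans ?_
  calc s j * (f j).totalDegree ≤ s j * 1 := Nat.mul_le_mul_left _ (hf j)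
    _ = s j := mul_one _

/-- descent of a form to the ground field -/
lemma descend {Ω : Type*} [Field Ω] [Algebra K Ω] {m : ℕ} (G : MvPolynomial (Fin m) Ω) (hG : G ≠ 0)
    {δ : ℕ} (hGδ : G.IsHomogeneous δ) : ∃ G' : MvPolynomial (Fin m) K, G' ≠ 0 ∧ G'.IsHomogeneous δ ∧
      ∀ x : Fin m → K, MvPolynomial.eval x G' ≠ 0 →
        MvPolynomial.eval (fun j => algebraMap K Ω (x j)) G ≠ 0 := by
  classical
  obtain ⟨s, hs⟩ := MvPolynomial.ne_zero_iff.1 hG
  obtain ⟨φ, hφ⟩ : ∃ φ : Module.Dual K Ω, φ (G.coeff s) ≠ 0 := by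
    by_contra hcon
    push Not at hcon
    exact hs ((Module.forall_dual_apply_eq_zero_iff K _).1 hcon)
  set G' : MvPolynomial (Fin m) K := ∑ t ∈ G.support, MvPolynomial.monomial t (φ (G.coeff t))
    with hG'
  have hcoeff : ∀ t, G'.coeff t = φ (G.coeff t) := by
    intro t
    rw [hG', MvPolynomial.coeff_sum]
    simp only [MvPolynomial.coeff_monomial]
    rw [Finset.sum_ite_eq']
    split_ifs with h
    · rfl
    · rw [MvPolynomial.notMem_support_iff.1 h, map_zero]
  refine ⟨G', ?_, ?_, fun x hx h0 => hx ?_⟩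
  · intro h
    apply hφ
    rw [← hcoeff, h, MvPolynomial.coeff_zero]
  · rw [hG']
    refine MvPolynomial.IsHomogeneous.sum _ _ _ fun t ht => ?_
    refine MvPolynomial.isHomogeneous_monomial _ ?_
    have h1 := hGδ (MvPolynomial.mem_support_iff.1 ht)
    exact (DFunLike.congr_fun (Finsupp.degree_eq_weight_one (σ := Fin m) (R := ℕ)) t).trans h1
  · have h1 : MvPolynomial.eval x G' = φ (MvPolynomial.eval (fun j => algebraMap K Ω (x j)) G) := by
      rw [hG', map_sum, MvPolynomial.eval_eq', map_sum]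
      refine Finset.sum_congr rfl fun t _ => ?_
      rw [MvPolynomial.eval_monomial, Finsupp.prod_fintype _ _ (fun _ => pow_zero _)]
      have h2 : ∏ i, algebraMap K Ω (x i) ^ t i = algebraMap K Ω (∏ i, x i ^ t i) := by
        rw [map_prod]
        exact Finset.prod_congr rfl fun i _ => (map_pow _ _ _).symm
      rw [h2, mul_comm (G.coeff t), ← Algebra.smul_def, map_smul, smul_eq_mul, mul_comm]
    rw [h1, h0, map_zero]

theorem main {n : ℕ} (hn : 1 ≤ n) (L : Fin (n + 2) → Fin (n + 1) → K)
    (hgp : ∀ I : Finset (Fin (n + 2)), I.card = n + 1 → LinearIndependent K (fun i : I => L i))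
    (F : MvPolynomial (Fin (n + 1)) K) {d : ℕ} (hF0 : F ≠ 0) (hFd : F.IsHomogeneous d)
    (hdiv : (∏ i, lin (L i)) ∣ F)
    {Ω : Type*} [Field Ω] [Algebra K Ω] (G : MvPolynomial (Fin (n + 1)) Ω) (hG : G ≠ 0) {δ : ℕ}
    (hGδ : G.IsHomogeneous δ) {κ : ℝ}
    (hκ : κ < kap n * (totalWeight K : ℝ) ^ (1 - (n : ℝ) / (n + 1))) (B : ℝ) :
    ∃ x : Fin (n + 1) → K, MvPolynomial.eval x F ≠ 0 ∧
      MvPolynomial.eval (fun j => algebraMap K Ω (x j)) G ≠ 0 ∧ B ≤ logHeight x ∧
      {v : HeightOneSpectrum (𝓞 K) | Bad v F d x}.Finite ∧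
      ∀ T : Finset (HeightOneSpectrum (𝓞 K)), (∀ v ∈ T, Bad v F d x) →
        ∑ v ∈ T, ell v + κ * logHeight x ^ ((n : ℝ) / (n + 1)) / Real.log (logHeight x) ≤
          ((d : ℝ) - n - 1) * logHeight x := by
  classical
  -- degrees
  obtain ⟨E, hE⟩ := hdiv
  have hE0 : E ≠ 0 := by
    rintro rfl
    exact hF0 (by rw [hE, mul_zero])
  have hL0 : (∏ i, lin (L i)) ≠ 0 := by
    intro h
    exact hF0 (by rw [hE, h, zero_mul])
  have hlinh : ∀ l : Fin (n + 1) → K, (lin l).IsHomogeneous 1 := by
    intro l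
    unfold lin
    refine MvPolynomial.IsHomogeneous.sum _ _ _ fun j _ => ?_
    have := (MvPolynomial.isHomogeneous_C (Fin (n + 1)) (l j)).mul
      (MvPolynomial.isHomogeneous_X K j)
    rwa [zero_add] at this
  have hprodh : (∏ i, lin (L i)).IsHomogeneous (n + 2) := by
    have := MvPolynomial.IsHomogeneous.prod (Finset.univ) (fun i => lin (L i)) (fun _ => 1)
      (fun i _ => hlinh (L i))
    simpa using this
  have hEdeg : d = n + 2 + E.totalDegree := by
    have h1 := MvPolynomial.totalDegree_mul_of_isDomain hL0 hE0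
    rw [← hE, hFd.totalDegree hF0, hprodh.totalDegree hL0] at h1
    exact h1
  -- the parametrisation
  obtain ⟨f, hf, hf'⟩ := exists_dual L hgp (Fin.castSuccEmb : Fin (n + 1) ↪ Fin (n + 2))
  have hlast : ∀ k : Fin (n + 1), (Fin.castSuccEmb : Fin (n + 1) ↪ Fin (n + 2)) k ≠ Fin.last (n + 1) :=
    fun k => (Fin.castSucc_lt_last k).ne
  have hlam := hf' _ hlast
  set lam : Fin (n + 1) → K := fun k => ∑ j, L (Fin.last (n + 1)) j * f k j with hlamdef
  have hlam0 : ∀ k, lam k ≠ 0 := hlam
  have hf1 : ∀ k l, ∑ j, L (Fin.castSucc k) j * f l j = if k = l then 1 else 0 := hf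
  have hexp : ∀ p : Fin (n + 1) → K,
      p = fun j => ∑ k, (∑ i, L (Fin.castSucc k) i * p i) * f k j := by
    intro p
    have h0 := gp_zero L hgp (univ.map Fin.castSuccEmb) (by simp)
      (fun j => p j - ∑ k, (∑ i, L (Fin.castSucc k) i * p i) * f k j) (by
        intro i hi
        obtain ⟨k, _, rfl⟩ := mem_map.1 hi
        change ∑ j, L (Fin.castSucc k) j * (p j - ∑ l, (∑ i, L (Fin.castSucc l) i * p i) * f l j) = 0
        have h1 : ∑ j, L (Fin.castSucc k) j * ∑ l, (∑ i, L (Fin.castSucc l) i * p i) * f l j =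
            ∑ i, L (Fin.castSucc k) i * p i := by
          have h2 : ∀ j, L (Fin.castSucc k) j * ∑ l, (∑ i, L (Fin.castSucc l) i * p i) * f l j =
              ∑ l, (∑ i, L (Fin.castSucc l) i * p i) * (L (Fin.castSucc k) j * f l j) := by
            intro j
            rw [Finset.mul_sum]
            exact Finset.sum_congr rfl fun l _ => by ring
          simp only [h2]
          rw [Finset.sum_comm]
          simp only [← Finset.mul_sum, hf1]
          simp
        simp only [mul_sub, Finset.sum_sub_distrib]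
        rw [h1, sub_self])
    funext j
    exact sub_eq_zero.1 (congrFun h0 j)
  -- the matrix
  set A : Fin (n + 1) → Fin (n + 2) → K := fun j i =>
    Fin.lastCases (motive := fun _ => K) 0 (fun k => (lam k)⁻¹ * f k j) i with hA
  have hAlast : ∀ j, A j (Fin.last (n + 1)) = 0 := fun j => by simp [hA]
  have hAcs : ∀ j k, A j (Fin.castSucc k) = (lam k)⁻¹ * f k j := fun j k => by simp [hA]
  set c : Fin (n + 2) → K := fun i =>
    Fin.lastCases (motive := fun _ => K) (-1) (fun k => (lam k)⁻¹) i with hc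
  have hclast : c (Fin.last (n + 1)) = -1 := by simp [hc]
  have hccs : ∀ k, c (Fin.castSucc k) = (lam k)⁻¹ := fun k => by simp [hc]
  have hc0 : ∀ i, c i ≠ 0 := by
    intro i
    refine Fin.lastCases ?_ (fun k => ?_) i
    · rw [hclast]; exact neg_ne_zero.2 one_ne_zero
    · rw [hccs]; exact inv_ne_zero (hlam0 k)
  have hAz : ∀ (z : Fin (n + 2) → K) j, ∑ i, A j i * z i =
      ∑ k, (lam k)⁻¹ * f k j * z (Fin.castSucc k) := by
    intro z j
    rw [Fin.sum_univ_castSucc, hAlast, zero_mul, add_zero]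
    exact Finset.sum_congr rfl fun k _ => by rw [hAcs]
  have hLA : ∀ z : Fin (n + 2) → K, ∑ i, z i = 0 → ∀ i,
      ∑ j, L i j * (∑ i', A j i' * z i') = c i * z i := by
    intro z hz i
    have h1 : ∀ i, ∑ j, L i j * (∑ i', A j i' * z i') =
        ∑ k, (lam k)⁻¹ * z (Fin.castSucc k) * ∑ j, L i j * f k j := by
      intro i
      simp only [hAz, Finset.mul_sum]
      rw [Finset.sum_comm]
      exact Finset.sum_congr rfl fun k _ => Finset.sum_congr rfl fun j _ => by ring
    rw [h1]
    refine Fin.lastCases ?_ (fun l => ?_) i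
    · have h2 : ∀ k, (lam k)⁻¹ * z (Fin.castSucc k) * ∑ j, L (Fin.last (n + 1)) j * f k j =
          z (Fin.castSucc k) := by
        intro k
        change (lam k)⁻¹ * z (Fin.castSucc k) * lam k = _
        have := hlam0 k
        field_simp
      rw [Finset.sum_congr rfl fun k _ => h2 k, hclast]
      rw [Fin.sum_univ_castSucc] at hz
      linear_combination hz
    · simp only [hf1]
      rw [hccs]
      simp
  have hrel : ∀ p : Fin (n + 1) → K, ∑ i, (c i)⁻¹ * ∑ j, L i j * p j = 0 := by
    intro p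
    rw [Fin.sum_univ_castSucc, hclast]
    have h1 : ∑ j, L (Fin.last (n + 1)) j * p j =
        ∑ k, (∑ i, L (Fin.castSucc k) i * p i) * lam k := by
      conv_lhs => rw [hexp p]
      simp only [Finset.mul_sum]
      rw [Finset.sum_comm]
      refine Finset.sum_congr rfl fun k _ => ?_
      rw [hlamdef]
      simp only [Finset.mul_sum]
      exact Finset.sum_congr rfl fun j _ => by ring
    rw [h1]
    simp only [hccs, inv_inv]
    have h2 : ∑ k, lam k * ∑ j, L (Fin.castSucc k) j * p j =
        ∑ k, (∑ i, L (Fin.castSucc k) i * p i) * lam k :=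
      Finset.sum_congr rfl fun k _ => mul_comm _ _
    rw [h2]
    norm_num
  have hAp : ∀ p : Fin (n + 1) → K, (fun j => ∑ i, A j i * ((c i)⁻¹ * ∑ j', L i j' * p j')) = p := by
    intro p
    conv_rhs => rw [hexp p]
    funext j
    rw [hAz]
    refine Finset.sum_congr rfl fun k _ => ?_
    rw [hccs, inv_inv]
    have := hlam0 k
    field_simp
  -- the forms to be avoided
  obtain ⟨G', hG'0, hG'δ, hG'ev⟩ := descend (K := K) G hG hGδ
  set H : MvPolynomial (Fin (n + 1)) K := G' * F with hH
  have hH0 : H ≠ 0 := mul_ne_zero hG'0 hF0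
  have hHδ : H.IsHomogeneous (δ + d) := hG'δ.mul hFd
  obtain ⟨p, hp⟩ : ∃ p : Fin (n + 1) → K, MvPolynomial.eval p H ≠ 0 := by
    by_contra hcon
    push Not at hcon
    exact hH0 (MvPolynomial.funext fun x => by rw [hcon x, map_zero])
  let φ : K →+* ℂ := Classical.choice inferInstance
  set fs : Fin (n + 1) → MvPolynomial (Fin (n + 2)) K := fun j => lin (A j) with hfs
  set HC : MvPolynomial (Fin (n + 2)) ℂ := MvPolynomial.map φ (MvPolynomial.aeval fs H) with hHC
  have hfsev : ∀ z : Fin (n + 2) → K, MvPolynomial.eval z (MvPolynomial.aeval fs H) =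
      MvPolynomial.eval (fun j => ∑ i, A j i * z i) H := by
    intro z
    rw [MvPolynomial.aeval_def, MvPolynomial.hom_eval₂]
    have h2 : (MvPolynomial.eval z).comp (algebraMap K (MvPolynomial (Fin (n + 2)) K)) =
        RingHom.id K := by ext c; simp
    rw [h2]
    change MvPolynomial.eval₂ (RingHom.id K) _ H = MvPolynomial.eval₂ (RingHom.id K) _ H
    congr 1
    funext j
    exact lin_eval _ _
  have hHCev : ∀ z : Fin (n + 2) → K, MvPolynomial.eval (fun i => φ (z i)) HC =
      φ (MvPolynomial.eval (fun j => ∑ i, A j i * z i) H) := by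
    intro z
    rw [hHC, MvPolynomial.eval_map, ← hfsev]
    have h3 : MvPolynomial.eval z (MvPolynomial.aeval fs H) =
        MvPolynomial.eval₂ (RingHom.id K) z (MvPolynomial.aeval fs H) := rfl
    rw [h3, MvPolynomial.hom_eval₂, RingHom.comp_id]
  have hHChom : HC.IsHomogeneous (δ + d) := by
    rw [hHC]
    refine MvPolynomial.IsHomogeneous.map ?_ φ
    have h0 : ∀ j, (fs j).IsHomogeneous 1 := by
      intro j
      rw [hfs]
      simp only
      unfold lin
      refine MvPolynomial.IsHomogeneous.sum _ _ _ fun i _ => ?_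
      have := (MvPolynomial.isHomogeneous_C (Fin (n + 2)) (A j i)).mul
        (MvPolynomial.isHomogeneous_X K i)
      rwa [zero_add] at this
    have h1 := MvPolynomial.IsHomogeneous.aeval (n := 1) hHδ fs h0
    rwa [one_mul] at h1
  -- the estimates
  obtain ⟨a1, ha1⟩ := logHeight_mat_le (K := K) A
  obtain ⟨a2, ha2⟩ := logHeight_mat_le (K := K) (fun (i : Fin (n + 2)) (j : Fin (n + 1)) => (c i)⁻¹ * L i j)
  set P : MvPolynomial (Fin (n + 2)) K := MvPolynomial.aeval fs E with hP
  have hPev : ∀ z : Fin (n + 2) → K, MvPolynomial.eval z P =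
      MvPolynomial.eval (fun j => ∑ i, A j i * z i) E := by
    intro z
    rw [hP, MvPolynomial.aeval_def, MvPolynomial.hom_eval₂]
    have h2 : (MvPolynomial.eval z).comp (algebraMap K (MvPolynomial (Fin (n + 2)) K)) =
        RingHom.id K := by ext c; simp
    rw [h2]
    change MvPolynomial.eval₂ (RingHom.id K) _ E = MvPolynomial.eval₂ (RingHom.id K) _ E
    congr 1
    funext j
    exact lin_eval _ _
  obtain ⟨a3, ha3⟩ := height_mv_le P (totalDegree_subst_le fs (fun j => lin_totalDegree_le _) E)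
  -- the bad primes
  set cs : Finset K := univ.image c ∪ (univ : Finset (Fin (n + 1) × Fin (n + 2))).image
    (fun q => A q.1 q.2) ∪ E.support.image E.coeff ∪ F.support.image F.coeff with hcs
  obtain ⟨T0, hT0⟩ := exists_bad cs
  have hcm : ∀ E' : MvPolynomial (Fin (n + 1)) K, E'.support.image E'.coeff ⊆ cs →
      ∀ v ∉ T0, ∀ m, fv v (E'.coeff m) ≤ 1 := by
    intro E' hE' v hv m
    by_cases h : E'.coeff m = 0
    · rw [h, map_zero]; exact zero_le_one
    · exact (hT0 v hv _ (hE' (Finset.mem_image.2 ⟨m, MvPolynomial.mem_support_iff.2 h, rfl⟩))).2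
  have hcE := hcm E (by intro y hy; simp only [hcs, Finset.mem_union]; tauto)
  have hcF := hcm F (by intro y hy; simp only [hcs, Finset.mem_union]; tauto)
  have hmA : ∀ v ∉ T0, ∀ j i, fv v (A j i) ≤ 1 := by
    intro v hv j i
    refine (hT0 v hv _ ?_).2
    have : A j i ∈ (univ : Finset (Fin (n + 1) × Fin (n + 2))).image (fun q => A q.1 q.2) :=
      Finset.mem_image.2 ⟨(j, i), Finset.mem_univ _, rfl⟩
    simp only [hcs, Finset.mem_union]; tauto
  have hmc : ∀ v ∉ T0, ∀ i, fv v (c i) = 1 := by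
    intro v hv i
    refine (hT0 v hv _ ?_).1 (hc0 i)
    have : c i ∈ Finset.univ.image c := Finset.mem_image.2 ⟨i, Finset.mem_univ _, rfl⟩
    simp only [hcs, Finset.mem_union]; tauto
  -- the comparison of the second order terms
  set D : ℝ := (totalWeight K : ℝ) with hD
  have hD1 : 1 ≤ D := by
    have : (totalWeight K : ℝ) = (Module.finrank ℚ K : ℝ) := by
      rw [← sum_mult]
      exact_mod_cast InfinitePlace.sum_mult_eq
    rw [hD, this]
    exact_mod_cast (Module.finrank_pos : 0 < Module.finrank ℚ K)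
  have hn0 : (0 : ℝ) < n := by exact_mod_cast hn
  have hapos : 0 < (n : ℝ) / (n + 1) := by positivity
  have halt : (n : ℝ) / (n + 1) < 1 := by
    rw [div_lt_one (by positivity)]
    linarith
  have hcmp := compare (C := ∑ v ∈ T0, ell v + (E.totalDegree + 1 : ℝ) * a2 + a3) (a1 := a1)
    (a2 := a2) hapos halt hD1 (kap_pos hn) hκ
  obtain ⟨t0, ht0⟩ := Filter.eventually_atTop.1 hcmp
  -- the good point
  obtain ⟨z, hz0, hzs, hzF, hzg, hzB, hzle⟩ := good_points hn HC hHChom
    (fun i => φ ((c i)⁻¹ * ∑ j, L i j * p j)) (by rw [← map_sum, hrel, map_zero]) (by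
      rw [hHCev, hAp]
      exact fun h => hp (φ.injective (by rw [h, map_zero]))) (max (max t0 0) (|B| + |a2| + 1))
  set t : ℝ := Real.log (mx z) with ht
  have htt0 : t0 ≤ t := ((le_max_left _ _).trans (le_max_left _ _)).trans hzB
  have ht00 : 0 ≤ t := ((le_max_right _ _).trans (le_max_left _ _)).trans hzB
  have htB : |B| + |a2| + 1 ≤ t := (le_max_right _ _).trans hzB
  set zK : Fin (n + 2) → K := fun i => (z i : K) with hzK
  have hzKs : ∑ i, zK i = 0 := by
    have h1 : ((∑ i, z i : ℤ) : K) = 0 := by rw [hzs]; simp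
    rw [← h1]
    push_cast
    rfl
  set x : Fin (n + 1) → K := fun j => ∑ i, A j i * zK i with hx
  have hHx : MvPolynomial.eval x H ≠ 0 := by
    intro h0
    apply hzF
    have h1 := hHCev zK
    rw [← hx, h0, map_zero] at h1
    rw [← h1]
    congr 2
    funext i
    simp [hzK]
  rw [hH, map_mul] at hHx
  have hFx : MvPolynomial.eval x F ≠ 0 := right_ne_zero_of_mul hHx
  have hGx := hG'ev x (left_ne_zero_of_mul hHx)
  have hLx : ∀ i, ∑ j, L i j * x j = c i * zK i := hLA zK hzKs
  have hFev : MvPolynomial.eval x F = (∏ i, c i * zK i) * MvPolynomial.eval x E := by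
    rw [hE, map_mul, map_prod]
    congr 1
    exact Finset.prod_congr rfl fun i _ => by rw [lin_eval, hLx]
  have hEx : MvPolynomial.eval x E ≠ 0 := by
    intro h
    rw [hFev, h, mul_zero] at hFx
    exact hFx rfl
  have hrdK : ((rd z : ℕ) : K) ≠ 0 := by exact_mod_cast (rd_pos z).ne'
  -- the bad primes of the point
  have key : ∀ v, Bad v F d x → v ∈ T0 ∨ (fv v ((rd z : ℕ) : K) < 1 ∨
      fv v (MvPolynomial.eval x E) < 1) := by
    intro v hbad
    by_cases hv : v ∈ T0
    · exact Or.inl hv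
    right
    by_contra hcon
    push Not at hcon
    obtain ⟨q1, q2⟩ := hcon
    have iz : ∀ i, fv v (zK i) = 1 := by
      intro i
      refine le_antisymm (fv_int v _) (not_lt.1 fun h => ?_)
      exact absurd (fv_rd_lt v z hz0 i h) (not_lt.2 q1)
    have ix : ∀ j, fv v (x j) ≤ 1 := by
      intro j
      rw [hx]
      refine fv_sum_le v _ _ fun i _ => ?_
      rw [map_mul, iz, mul_one]
      exact hmA v hv j i
    have iE : fv v (MvPolynomial.eval x E) ≤ 1 := fv_mv_le v E (hcE v hv) ix
    have hval : fv v (MvPolynomial.eval x F) = 1 := by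
      rw [hFev, map_mul, le_antisymm iE q2, mul_one, map_prod]
      refine Finset.prod_eq_one fun i _ => ?_
      rw [map_mul, hmc v hv, iz, mul_one]
    unfold Bad at hbad
    rw [hval] at hbad
    have hs1 : (⨆ m, fv v (F.coeff m)) ≤ 1 := ciSup_le fun m => hcF v hv m
    have hs2 : (⨆ j, fv v (x j)) ≤ 1 := ciSup_le fun j => ix j
    have hs0 : 0 ≤ (⨆ j, fv v (x j)) := Real.iSup_nonneg fun j => (fv v).nonneg _
    have := mul_le_one₀ hs1 (pow_nonneg hs0 d) (pow_le_one₀ hs0 hs2)
    linarith
  -- heights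
  have hzht : logHeight zK = D * t := logHeight_int z hzg
  have hup : logHeight x ≤ D * t + a1 := by
    have := ha1 zK
    rw [hzht] at this
    exact this
  have hlow : D * t - a2 ≤ logHeight x := by
    have h1 := ha2 x
    have h2 : (fun i => ∑ j, (c i)⁻¹ * L i j * x j) = zK := by
      funext i
      have h3 : ∑ j, (c i)⁻¹ * L i j * x j = (c i)⁻¹ * ∑ j, L i j * x j := by
        rw [Finset.mul_sum]
        exact Finset.sum_congr rfl fun j _ => by ring
      rw [h3, hLx, ← mul_assoc, inv_mul_cancel₀ (hc0 i), one_mul]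
    rw [h2, hzht] at h1
    linarith
  have hmx1 : 1 ≤ mx z := by
    refine le_trans (Nat.one_le_iff_ne_zero.2 (Int.natAbs_ne_zero.2 (hz0 0))) ?_
    exact Finset.le_sup (f := fun i => (z i).natAbs) (mem_univ _)
  have hEht : logHeight₁ (MvPolynomial.eval x E) ≤ D * (E.totalDegree * t) + a3 := by
    have := ha3 z (mx z) hmx1 (fun i => Finset.le_sup (f := fun i => (z i).natAbs) (mem_univ i))
    rw [hPev] at this
    exact this
  have hrdht : logHeight₁ ((rd z : ℕ) : K) = D * Real.log (rd z) := logHeight₁_nat (rd_pos z)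
  refine ⟨x, hFx, hGx, ?_, ?_, fun T hT => ?_⟩
  · have h1 := le_abs_self B
    have h2 := le_abs_self a2
    have h3 : t ≤ D * t := le_mul_of_one_le_left ht00 hD1
    linarith
  · refine (T0.finite_toSet.union ((fv_support_finite hrdK).union
      (fv_support_finite hEx))).subset ?_
    intro v hv
    rcases key v hv with h | h | h
    · exact Or.inl h
    · exact Or.inr (Or.inl h.ne)
    · exact Or.inr (Or.inr h.ne)
  have h1 := sum_union_le (Finset.univ : Finset (Fin 2))
    ![((rd z : ℕ) : K), MvPolynomial.eval x E] (by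
      intro l _
      fin_cases l
      · exact hrdK
      · exact hEx) T0 T (by
      intro v hv
      rcases key v (hT v hv) with h | h | h
      · exact Or.inl h
      · exact Or.inr ⟨0, Finset.mem_univ _, h⟩
      · exact Or.inr ⟨1, Finset.mem_univ _, h⟩)
  rw [Fin.sum_univ_two] at h1
  change ∑ v ∈ T, ell v ≤ ∑ v ∈ T0, ell v + (logHeight₁ ((rd z : ℕ) : K) +
    logHeight₁ (MvPolynomial.eval x E)) at h1
  rw [hrdht] at h1
  have h2 := ht0 t htt0 (logHeight x) hup hlow
  have h3 : D * Real.log (rd z) + D * (kap n * t ^ ((n : ℝ) / (n + 1)) / Real.log t) ≤ D * t := by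
    rw [← mul_add]
    exact mul_le_mul_of_nonneg_left hzle (by linarith)
  have hdR : (d : ℝ) = n + 2 + E.totalDegree := by rw [hEdeg]; push_cast; ring
  rw [hdR]
  have he0 : (0 : ℝ) ≤ E.totalDegree := Nat.cast_nonneg _
  have h4 : (E.totalDegree + 1 : ℝ) * (D * t - a2) ≤ (E.totalDegree + 1 : ℝ) * logHeight x :=
    mul_le_mul_of_nonneg_left hlow (by linarith)
  have h5 : (E.totalDegree + 1 : ℝ) * (D * t - a2) = D * (E.totalDegree * t) + D * t -
      (E.totalDegree + 1 : ℝ) * a2 := by ring
  have h6 : ((n : ℝ) + 2 + E.totalDegree - n - 1) * logHeight x =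
      (E.totalDegree + 1 : ℝ) * logHeight x := by ring
  rw [h6]
  linarith

end Pool.Agent.U168.VJ
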