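import Pool.Agent.Results.MP_7475bd_nt.LargerConstant
import Pool.Agent.W231.V.Alg2

/-!
Good points of the hyperplane `Z_1 + ⋯ + Z_n = 0`, in primitive integer coordinates.
-/

set_option autoImplicit false

namespace Pool.Agent.U168.VJ

open Finset Pool.Agent.Results.MP_7475bd_nt.LargerConstant

/-- the largest coordinate -/
def mx {m : ℕ} (z : Fin m → ℤ) : ℕ := univ.sup fun i => (z i).natAbs

/-- the product of the primes dividing a coordinate -/
noncomputable def rd {m : ℕ} (z : Fin m → ℤ) : ℕ := ∏ p ∈ (∏ i, (z i).natAbs).primeFactors, p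

lemma rd_pos {m : ℕ} (z : Fin m → ℤ) : 0 < rd z :=
  Finset.prod_pos fun p hp => (Nat.prime_of_mem_primeFactors hp).pos

/-- the constant -/
noncomputable def kap (n : ℕ) : ℝ := ((n : ℝ) + 1) ^ 2 / (n : ℝ) ^ ((2 * (n : ℝ) + 1) / (n + 1)) *
  1.71 ^ (2 * (n : ℝ) / (n + 1))

lemma kap_pos {n : ℕ} (hn : 1 ≤ n) : 0 < kap n := by
  have : (0 : ℝ) < n := by exact_mod_cast hn
  unfold kap
  positivity

theorem good_points {k : ℕ} (hk : 1 ≤ k) (F : MvPolynomial (Fin (k + 2)) ℂ) {d : ℕ}
    (hFd : F.IsHomogeneous d) (w : Fin (k + 2) → ℂ) (hw : ∑ i, w i = 0)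
    (hFw : MvPolynomial.eval w F ≠ 0) (B : ℝ) :
    ∃ z : Fin (k + 2) → ℤ, (∀ i, z i ≠ 0) ∧ ∑ i, z i = 0 ∧
      MvPolynomial.eval (fun i => (z i : ℂ)) F ≠ 0 ∧ (univ.gcd fun i => (z i).natAbs) = 1 ∧
      B ≤ Real.log (mx z) ∧
      Real.log (rd z) + kap k * Real.log (mx z) ^ ((k : ℝ) / (k + 1)) /
        Real.log (Real.log (mx z)) ≤ Real.log (mx z) := by
  classical
  -- a nonzero vector
  obtain ⟨w, hw, hFw, hw0⟩ : ∃ w : Fin (k + 2) → ℂ, ∑ i, w i = 0 ∧
      MvPolynomial.eval w F ≠ 0 ∧ w ≠ 0 := by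
    by_cases h0 : w = 0
    · have h1 : F.coeff 0 ≠ 0 := by
        rw [h0, MvPolynomial.eval_zero] at hFw
        exact hFw
      have h2 : d = 0 := by
        by_contra hd
        exact h1 (hFd.coeff_eq_zero (by simpa using (Ne.symm hd)))
      subst h2
      have h3 : F = MvPolynomial.C (F.coeff 0) :=
        MvPolynomial.totalDegree_eq_zero_iff_eq_C.1 (hFd.totalDegree (by
          rintro rfl; exact h1 (by simp)))
      let i0 : Fin (k + 2) := ⟨0, by omega⟩
      let i1 : Fin (k + 2) := ⟨1, by omega⟩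
      have h01 : i0 ≠ i1 := by simp [i0, i1]
      refine ⟨fun i => (if i = i0 then 1 else 0) - (if i = i1 then 1 else 0), ?_, ?_, ?_⟩
      · rw [Finset.sum_sub_distrib, Finset.sum_ite_eq', Finset.sum_ite_eq']
        simp
      · rw [h3, MvPolynomial.eval_C]
        exact h1
      · intro h
        have := congrFun h i0
        simp [h01] at this
    · exact ⟨w, hw, hFw, h0⟩
  have e1 : (((k + 2 : ℕ) : ℝ) - 2) = k := by push_cast; ring
  have e2 : (((k + 2 : ℕ) : ℝ) - 1) = k + 1 := by push_cast; ring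
  have e3 : (2 * ((k + 2 : ℕ) : ℝ) - 3) = 2 * k + 1 := by push_cast; ring
  obtain ⟨z, hz0, hzs, hzF, hB, hle⟩ := result (k + 2) (by omega) {F}
    (by
      intro F' hF'
      rw [Set.mem_singleton_iff] at hF'
      subst hF'
      exact ⟨d, hFd⟩)
    (by
      intro h
      have h1 : w ∈ locus (∅ : Set (MvPolynomial (Fin (k + 2)) ℂ)) :=
        ⟨hw0, hw, fun F' hF' => absurd hF' (Set.notMem_empty F')⟩
      rw [← h] at h1
      exact hFw (h1.2.2 F rfl))
    (kap k) (by
      unfold kap
      rw [e1, e2, e3]) B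
  rw [e1, e2] at hle
  -- primitive coordinates
  set g : ℕ := univ.gcd fun i => (z i).natAbs with hg
  have hg0 : g ≠ 0 := by
    intro h
    rw [hg, Finset.gcd_eq_zero_iff] at h
    have := h ⟨0, by omega⟩ (mem_univ _)
    exact hz0 _ (Int.natAbs_eq_zero.1 this)
  have hgd : ∀ i, (g : ℤ) ∣ z i := fun i =>
    Int.natCast_dvd.2 (Finset.gcd_dvd (mem_univ i))
  choose y hy using hgd
  have hy0 : ∀ i, y i ≠ 0 := by
    intro i h
    exact hz0 i (by rw [hy i, h, mul_zero])
  have hya : ∀ i, (z i).natAbs = g * (y i).natAbs := by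
    intro i
    rw [hy i, Int.natAbs_mul, Int.natAbs_natCast]
  have hyg : (univ.gcd fun i => (y i).natAbs) = 1 := by
    have h1 : g = g * univ.gcd fun i => (y i).natAbs := by
      conv_lhs => rw [hg]
      simp only [hya]
      rw [Finset.gcd_mul_left]
      simp
    have h2 : g * 1 = g * univ.gcd fun i => (y i).natAbs := by rw [mul_one]; exact h1
    exact (Nat.eq_of_mul_eq_mul_left (Nat.pos_of_ne_zero hg0) h2).symm
  have hymx : mx z = g * mx y := by
    unfold mx
    simp only [hya]
    apply le_antisymm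
    · refine Finset.sup_le fun i _ => Nat.mul_le_mul_left _ ?_
      exact Finset.le_sup (f := fun i => (y i).natAbs) (mem_univ i)
    · obtain ⟨i, _, hi⟩ := Finset.exists_mem_eq_sup (univ : Finset (Fin (k + 2)))
        ⟨⟨0, by omega⟩, mem_univ _⟩ (fun i => (y i).natAbs)
      rw [hi]
      exact Finset.le_sup (f := fun i => g * (y i).natAbs) (mem_univ i)
  have hmy0 : 0 < mx y := by
    refine lt_of_lt_of_le (Nat.pos_of_ne_zero (Int.natAbs_ne_zero.2 (hy0 ⟨0, by omega⟩))) ?_
    exact Finset.le_sup (f := fun i => (y i).natAbs) (mem_univ _)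
  have hht : height z = Real.log (mx y) := by
    have h1 : height z = Real.log (mx z) - Real.log g := rfl
    rw [h1, hymx]
    push_cast
    rw [Real.log_mul (by exact_mod_cast hg0) (by exact_mod_cast hmy0.ne')]
    ring
  have hrd : Real.log (rd y) ≤ radical z := by
    unfold rd radical
    push_cast
    rw [Real.log_prod (fun p hp => by
      exact_mod_cast (Nat.prime_of_mem_primeFactors hp).ne_zero)]
    refine Finset.sum_le_sum_of_subset_of_nonneg ?_ fun p _ _ => Real.log_natCast_nonneg p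
    intro p hp
    have hpp := Nat.prime_of_mem_primeFactors hp
    have := Fact.mk hpp
    have hpd := Nat.dvd_of_mem_primeFactors hp
    obtain ⟨i, _, hi⟩ := (Prime.dvd_finsetProd_iff hpp.prime _).1 hpd
    rw [Finset.mem_filter]
    constructor
    · refine Nat.mem_primeFactors.2 ⟨hpp, ?_, ?_⟩
      · refine dvd_trans ?_ (Finset.dvd_prod_of_mem _ (mem_univ i))
        rw [hya]
        exact Dvd.dvd.mul_left hi g
      · exact Finset.prod_ne_zero_iff.2 fun i _ => Int.natAbs_ne_zero.2 (hz0 i)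
    · obtain ⟨j, hj⟩ : ∃ j, ¬ p ∣ (y j).natAbs := by
        by_contra hcon
        push Not at hcon
        have : p ∣ univ.gcd fun i => (y i).natAbs := Finset.dvd_gcd fun i _ => hcon i
        rw [hyg] at this
        exact hpp.one_lt.ne' (Nat.dvd_one.1 this)
      refine ⟨i, j, ?_⟩
      have hgz : (g : ℤ) ≠ 0 := by exact_mod_cast hg0
      rw [hy i, hy j, padicValInt.mul hgz (hy0 i), padicValInt.mul hgz (hy0 j)]
      have h1 : padicValInt p (y j) = 0 := by
        unfold padicValInt
        exact padicValNat.eq_zero_of_not_dvd hj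
      have h2 : 1 ≤ padicValInt p (y i) := by
        unfold padicValInt
        exact one_le_padicValNat_of_dvd (Int.natAbs_ne_zero.2 (hy0 i)) hi
      omega
  rw [hht] at hB hle
  refine ⟨y, hy0, ?_, ?_, hyg, hB, ?_⟩
  · have h1 : (g : ℤ) * ∑ i, y i = 0 := by
      rw [Finset.mul_sum, ← hzs]
      exact Finset.sum_congr rfl fun i _ => (hy i).symm
    rcases mul_eq_zero.1 h1 with h | h
    · exact absurd (by exact_mod_cast h) hg0
    · exact h
  · intro h
    apply hzF
    refine ⟨?_, ?_, ?_⟩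
    · intro h0
      have h1 : (z ⟨0, by omega⟩ : ℂ) = 0 := congrFun h0 ⟨0, by omega⟩
      have h2 : z ⟨0, by omega⟩ = 0 := by exact_mod_cast h1
      exact hz0 _ h2
    · have h1 : ((∑ i, z i : ℤ) : ℂ) = 0 := by rw [hzs]; simp
      rw [← h1]
      push_cast
      rfl
    · intro F' hF'
      rw [Set.mem_singleton_iff] at hF'
      subst hF'
      have h2 : (fun i => (z i : ℂ)) = fun i => (g : ℂ) * (fun i => (y i : ℂ)) i := by
        funext i
        rw [hy i]
        push_cast
        ring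
      have h3 : MvPolynomial.eval (fun i => (g : ℂ) * (fun i => (y i : ℂ)) i) F' =
          (g : ℂ) ^ d * MvPolynomial.eval (fun i => (y i : ℂ)) F' :=
        Pool.Agent.W231.V.hom_eval₂ (RingHom.id ℂ) hFd _ _
      rw [h2, h3, h, mul_zero]
  · linarith

end Pool.Agent.U168.VJ
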