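import Pool.Agent.U168.VJ.NF2

/-!
The second order term in the truncated Vojta inequality for finite subsets of the projective line.
-/

set_option autoImplicit false
set_option linter.unusedSectionVars false

namespace Pool.Agent.U168.VJ

open NumberField IsDedekindDomain Height Finset Pool.Agent.W231.V
open Pool.Agent.W231.G (exists_bad fv_mv_le)
open Pool.Agent.W231.H (Bad lin lin_eval)

lemma kap_one : kap 1 = 6.84 := by
  unfold kap
  norm_num

variable {K : Type*} [Field K] [NumberField K]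

/-- the determinant -/
def dt (x a : Fin 2 → K) : K := x 0 * a 1 - x 1 * a 0

/-- the linear form which vanishes at the point `a` -/
def pf (a : Fin 2 → K) : Fin 2 → K := ![a 1, - a 0]

lemma pf_eval (a x : Fin 2 → K) : MvPolynomial.eval x (lin (pf a)) = dt x a := by
  rw [lin_eval, Fin.sum_univ_two]
  simp [pf, dt]
  ring

lemma lin_ne {m : ℕ} {l : Fin m → K} (x : Fin m → K) (h : MvPolynomial.eval x (lin l) ≠ 0) :
    lin l ≠ 0 := by
  rintro h0
  exact h (by rw [h0, map_zero])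

lemma dt_self (a : Fin 2 → K) : dt a a = 0 := by unfold dt; ring

lemma cramer (x a b : Fin 2 → K) (j : Fin 2) :
    x j * dt a b = dt x b * a j - dt x a * b j := by
  unfold dt
  fin_cases j
  · simp; ring
  · simp; ring

/-- the larger coordinate -/
noncomputable def mxv (v : HeightOneSpectrum (𝓞 K)) (x : Fin 2 → K) : ℝ :=
  max (fv v (x 0)) (fv v (x 1))

lemma mxv_nonneg (v : HeightOneSpectrum (𝓞 K)) (x : Fin 2 → K) : 0 ≤ mxv v x :=
  le_max_of_le_left ((fv v).nonneg _)

lemma le_mxv (v : HeightOneSpectrum (𝓞 K)) (x : Fin 2 → K) (j : Fin 2) : fv v (x j) ≤ mxv v x := by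
  fin_cases j
  · exact le_max_left _ _
  · exact le_max_right _ _

lemma fv_dt_le (v : HeightOneSpectrum (𝓞 K)) (x a : Fin 2 → K) :
    fv v (dt x a) ≤ mxv v x * mxv v a := by
  unfold dt
  have h1 : fv v (x 0 * a 1 - x 1 * a 0) ≤ max (fv v (x 0 * a 1)) (fv v (x 1 * a 0)) := by
    have := fv_na v (x 0 * a 1) (-(x 1 * a 0))
    rwa [map_neg_eq_map, ← sub_eq_add_neg] at this
  refine h1.trans (max_le ?_ ?_)
  · rw [map_mul]
    exact mul_le_mul (le_mxv v x 0) (le_mxv v a 1) ((fv v).nonneg _) (mxv_nonneg v x)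
  · rw [map_mul]
    exact mul_le_mul (le_mxv v x 1) (le_mxv v a 0) ((fv v).nonneg _) (mxv_nonneg v x)

/-- at most one of two points is close to `x` at a good prime -/
lemma not_both (v : HeightOneSpectrum (𝓞 K)) (x a b : Fin 2 → K) (ha : mxv v a ≤ 1)
    (hb : mxv v b ≤ 1) (hab : fv v (dt a b) = 1) (h1 : fv v (dt x a) < mxv v x)
    (h2 : fv v (dt x b) < mxv v x) : False := by
  have h3 : ∀ j, fv v (x j) < mxv v x := by
    intro j
    have h4 : fv v (x j) = fv v (dt x b * a j - dt x a * b j) := by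
      rw [← cramer, map_mul, hab, mul_one]
    rw [h4]
    have h5 : fv v (dt x b * a j - dt x a * b j) ≤
        max (fv v (dt x b * a j)) (fv v (dt x a * b j)) := by
      have := fv_na v (dt x b * a j) (-(dt x a * b j))
      rwa [map_neg_eq_map, ← sub_eq_add_neg] at this
    refine lt_of_le_of_lt h5 (max_lt ?_ ?_)
    · rw [map_mul]
      calc fv v (dt x b) * fv v (a j) ≤ fv v (dt x b) * 1 :=
            mul_le_mul_of_nonneg_left ((le_mxv v a j).trans ha) ((fv v).nonneg _)
        _ < mxv v x := by rwa [mul_one]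
    · rw [map_mul]
      calc fv v (dt x a) * fv v (b j) ≤ fv v (dt x a) * 1 :=
            mul_le_mul_of_nonneg_left ((le_mxv v b j).trans hb) ((fv v).nonneg _)
        _ < mxv v x := by rwa [mul_one]
  exact absurd (max_lt (h3 0) (h3 1)) (lt_irrefl _)

theorem p1 {q : ℕ} (hq : 3 ≤ q) (α : Fin q → Fin 2 → K) (hα : ∀ l, α l ≠ 0)
    (hα' : ∀ l l', l ≠ l' → dt (α l) (α l') ≠ 0) :
    ∃ (a1 a2 C : ℝ) (T1 : Finset (HeightOneSpectrum (𝓞 K))), ∀ B : ℝ, ∃ (x : Fin 2 → K) (t : ℝ),
      B ≤ t ∧ (∀ l, dt x (α l) ≠ 0) ∧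
      logHeight x ≤ (totalWeight K : ℝ) * t + a1 ∧ (totalWeight K : ℝ) * t - a2 ≤ logHeight x ∧
      (∀ v ∉ T1, ∀ l, mxv v (α l) = 1) ∧ (∀ v ∉ T1, ∀ l l', l ≠ l' → fv v (dt (α l) (α l')) = 1) ∧
      {v : HeightOneSpectrum (𝓞 K) | v ∉ T1 ∧ ∃ l, fv v (dt x (α l)) < mxv v x}.Finite ∧
      ∀ T : Finset (HeightOneSpectrum (𝓞 K)),
        (∀ v ∈ T, v ∉ T1 ∧ ∃ l, fv v (dt x (α l)) < mxv v x) →
        ∑ v ∈ T, ell v + (totalWeight K : ℝ) * (6.84 * √t / Real.log t) ≤
          ((q : ℝ) - 2) * logHeight x + C := by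
  classical
  set e : Fin 3 ↪ Fin q := Fin.castLEEmb hq with he
  set L : Fin 3 → Fin 2 → K := fun i => pf (α (e i)) with hL
  have hgp : ∀ I : Finset (Fin (1 + 2)), I.card = 1 + 1 → LinearIndependent K (fun i : I => L i) := by
    intro I hI
    obtain ⟨i, j, hij, rfl⟩ := Finset.card_eq_two.1 hI
    rw [Fintype.linearIndependent_iff]
    intro g hg
    have hi : i ∈ ({i, j} : Finset (Fin 3)) := by simp
    have hj : j ∈ ({i, j} : Finset (Fin 3)) := by simp
    have hsum : ∀ m : Fin 2, g ⟨i, hi⟩ * L i m + g ⟨j, hj⟩ * L j m = 0 := by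
      intro m
      have h1 := congrFun hg m
      rw [Finset.sum_apply] at h1
      simp only [Pi.smul_apply, smul_eq_mul, Pi.zero_apply] at h1
      have h2 : ∑ c : ({i, j} : Finset (Fin 3)), g c * L c m =
          ∑ c ∈ ({i, j} : Finset (Fin 3)).attach, g c * L c m := by
        rw [← Finset.univ_eq_attach]
      have h3 : ({i, j} : Finset (Fin 3)).attach = {⟨i, hi⟩, ⟨j, hj⟩} := by
        ext ⟨c, hc⟩
        simp only [Finset.mem_attach, Finset.mem_insert, Finset.mem_singleton, Subtype.mk.injEq,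
          true_iff]
        simpa using hc
      rw [h2, h3, Finset.sum_pair (by simpa using hij)] at h1
      exact h1
    have hd : dt (α (e i)) (α (e j)) ≠ 0 := hα' _ _ fun h => hij (e.injective h)
    have h0 := hsum 0
    have h1 := hsum 1
    simp only [hL, pf, Matrix.cons_val_zero, Matrix.cons_val_one] at h0 h1
    have gi : g ⟨i, hi⟩ = 0 := by
      have : g ⟨i, hi⟩ * dt (α (e i)) (α (e j)) = 0 := by
        unfold dt
        linear_combination (-(α (e j) 0)) * h0 - (α (e j) 1) * h1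
      exact (mul_eq_zero.1 this).resolve_right hd
    have gj : g ⟨j, hj⟩ = 0 := by
      have : g ⟨j, hj⟩ * dt (α (e i)) (α (e j)) = 0 := by
        unfold dt
        linear_combination (α (e i) 0) * h0 + (α (e i) 1) * h1
      exact (mul_eq_zero.1 this).resolve_right hd
    rintro ⟨c, hc⟩
    have hc' : c = i ∨ c = j := by simpa using hc
    rcases hc' with rfl | rfl
    · exact gi
    · exact gj
  set F : MvPolynomial (Fin 2) K := ∏ l, lin (pf (α l)) with hF
  have hlin : ∀ l, lin (pf (α l)) ≠ 0 := by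
    intro l
    obtain ⟨l', hl'⟩ : ∃ l' : Fin q, l' ≠ l := by
      have : Nontrivial (Fin q) := Fin.nontrivial_iff_two_le.2 (by omega)
      exact exists_ne l
    exact lin_ne (α l') (by rw [pf_eval]; exact hα' l' l hl')
  have hF0 : F ≠ 0 := Finset.prod_ne_zero_iff.2 fun l _ => hlin l
  have hlinh : ∀ l : Fin 2 → K, (lin l).IsHomogeneous 1 := by
    intro l
    unfold lin
    refine MvPolynomial.IsHomogeneous.sum _ _ _ fun j _ => ?_
    have := (MvPolynomial.isHomogeneous_C (Fin 2) (l j)).mul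
      (MvPolynomial.isHomogeneous_X K j)
    rwa [zero_add] at this
  have hFd : F.IsHomogeneous q := by
    have := MvPolynomial.IsHomogeneous.prod (Finset.univ) (fun l => lin (pf (α l))) (fun _ => 1)
      (fun l _ => hlinh (pf (α l)))
    simpa using this
  have hdiv : (∏ i : Fin (1 + 2), lin (L i)) ∣ F := by
    have h1 : ∏ i : Fin (1 + 2), lin (L i) = ∏ l ∈ univ.map e, lin (pf (α l)) := by
      rw [Finset.prod_map]
    rw [h1, hF]
    exact Finset.prod_dvd_prod_of_subset _ _ _ (Finset.subset_univ _)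
  obtain ⟨a1, a2, C, hmain⟩ := main_raw (le_refl 1) L hgp F hF0 hFd hdiv
    (Ω := K) (1 : MvPolynomial (Fin 2) K) one_ne_zero (δ := 0) (MvPolynomial.isHomogeneous_one _ _)
  -- the bad primes
  set cs : Finset K := (univ : Finset (Fin q × Fin 2)).image (fun p => α p.1 p.2) ∪
    (univ : Finset (Fin q × Fin q)).image (fun p => dt (α p.1) (α p.2)) ∪
    F.support.image F.coeff with hcs
  obtain ⟨T1, hT1⟩ := exists_bad cs
  have g1 : ∀ v ∉ T1, ∀ l j, (α l j ≠ 0 → fv v (α l j) = 1) ∧ fv v (α l j) ≤ 1 := by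
    intro v hv l j
    refine hT1 v hv _ ?_
    have : α l j ∈ (univ : Finset (Fin q × Fin 2)).image (fun p => α p.1 p.2) :=
      Finset.mem_image.2 ⟨(l, j), Finset.mem_univ _, rfl⟩
    simp only [hcs, Finset.mem_union]; tauto
  have g2 : ∀ v ∉ T1, ∀ l l', l ≠ l' → fv v (dt (α l) (α l')) = 1 := by
    intro v hv l l' hll
    refine (hT1 v hv _ ?_).1 (hα' l l' hll)
    have : dt (α l) (α l') ∈ (univ : Finset (Fin q × Fin q)).image
        (fun p => dt (α p.1) (α p.2)) := Finset.mem_image.2 ⟨(l, l'), Finset.mem_univ _, rfl⟩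
    simp only [hcs, Finset.mem_union]; tauto
  have g3 : ∀ v ∉ T1, ∀ l, mxv v (α l) = 1 := by
    intro v hv l
    apply le_antisymm (max_le (g1 v hv l 0).2 (g1 v hv l 1).2)
    obtain ⟨j, hj⟩ := Function.ne_iff.1 (hα l)
    rw [← (g1 v hv l j).1 hj]
    exact le_mxv v _ j
  have g4 : ∀ v ∉ T1, 1 ≤ ⨆ m, fv v (F.coeff m) := by
    intro v hv
    obtain ⟨m, hm⟩ := MvPolynomial.ne_zero_iff.1 hF0
    have hmem : F.coeff m ∈ cs := by
      have : F.coeff m ∈ F.support.image F.coeff :=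
        Finset.mem_image.2 ⟨m, MvPolynomial.mem_support_iff.2 hm, rfl⟩
      simp only [hcs, Finset.mem_union]; tauto
    rw [← (hT1 v hv _ hmem).1 hm]
    refine le_ciSup (f := fun m => fv v (F.coeff m)) ⟨1, ?_⟩ m
    rintro _ ⟨m', rfl⟩
    by_cases h : F.coeff m' = 0
    · simp [h]
    · have hmem' : F.coeff m' ∈ cs := by
        have : F.coeff m' ∈ F.support.image F.coeff :=
          Finset.mem_image.2 ⟨m', MvPolynomial.mem_support_iff.2 h, rfl⟩
        simp only [hcs, Finset.mem_union]; tauto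
      exact (hT1 v hv _ hmem').2
  refine ⟨a1, a2, C, T1, fun B => ?_⟩
  obtain ⟨x, t, hBt, hFx, -, hup, hlow, hfin, hsum⟩ := hmain B
  have hFev : MvPolynomial.eval x F = ∏ l, dt x (α l) := by
    rw [hF, map_prod]
    exact Finset.prod_congr rfl fun l _ => pf_eval _ _
  have hdt : ∀ l, dt x (α l) ≠ 0 := by
    intro l
    rw [hFev] at hFx
    exact Finset.prod_ne_zero_iff.1 hFx l (mem_univ l)
  have hx0 : ∀ v : HeightOneSpectrum (𝓞 K), 0 < mxv v x := by
    intro v
    by_contra hcon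
    have h0 : mxv v x = 0 := le_antisymm (not_lt.1 hcon) (mxv_nonneg v x)
    have h1 : ∀ j, x j = 0 := by
      intro j
      have h2 := le_mxv v x j
      rw [h0] at h2
      exact (map_eq_zero (fv v)).1 (le_antisymm h2 ((fv v).nonneg _))
    apply hdt ⟨0, by omega⟩
    unfold dt
    rw [h1 0, h1 1]
    ring
  have hsup : ∀ v : HeightOneSpectrum (𝓞 K), mxv v x ≤ ⨆ j, fv v (x j) := by
    intro v
    exact max_le (le_ciSup (f := fun j => fv v (x j)) (Set.finite_range _).bddAbove 0)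
      (le_ciSup (f := fun j => fv v (x j)) (Set.finite_range _).bddAbove 1)
  have hbad : ∀ v, (v ∉ T1 ∧ ∃ l, fv v (dt x (α l)) < mxv v x) → Bad v F q x := by
    rintro v ⟨hv, l, hl⟩
    unfold Bad
    rw [hFev, map_prod]
    have h1 : ∏ l, fv v (dt x (α l)) < ∏ _l : Fin q, mxv v x := by
      refine Finset.prod_lt_prod ?_ ?_ ⟨l, mem_univ l, hl⟩
      · intro m _
        exact (fv v).pos (hdt m)
      · intro m _
        have := fv_dt_le v x (α m)
        rwa [g3 v hv m, mul_one] at this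
    rw [Finset.prod_const, card_univ, Fintype.card_fin] at h1
    calc ∏ l, fv v (dt x (α l)) < mxv v x ^ q := h1
      _ ≤ (⨆ j, fv v (x j)) ^ q := pow_le_pow_left₀ (mxv_nonneg v x) (hsup v) _
      _ ≤ (⨆ m, fv v (F.coeff m)) * (⨆ j, fv v (x j)) ^ q :=
          le_mul_of_one_le_left (pow_nonneg ((mxv_nonneg v x).trans (hsup v)) _) (g4 v hv)
  refine ⟨x, t, hBt, hdt, hup, hlow, g3, g2, hfin.subset fun v hv => hbad v hv, fun T hT => ?_⟩
  have h1 := hsum T fun v hv => hbad v (hT v hv)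
  have h2 : ((1 : ℕ) : ℝ) / ((1 : ℕ) + 1) = 1 / 2 := by norm_num
  rw [kap_one, h2, ← Real.sqrt_eq_rpow] at h1
  have h3 : ((q : ℝ) - (1 : ℕ) - 1) = q - 2 := by push_cast; ring
  rw [h3] at h1
  exact h1

end Pool.Agent.U168.VJ
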